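import Pool.Agent.S17434

/-!
# An odd `k`, not a Sierpinski number, such that no Fermat number has a prime factor `k * 2 ^ n + 1`

`k = 3 * 30093202437272969173339374829 ^ 2` is odd, `k * 2 ^ 192 + 1` is prime, so that `k` is not a Sierpinski number, and
no prime number of the form `k * 2 ^ n + 1` divides any Fermat number `2 ^ 2 ^ m + 1`.

For odd `n` the number `k * 2 ^ n + 1` has one of 13 small prime divisors (a covering of the odd exponents). For even `n`
it is `1 + 3 * Y ^ 2`, `3` not dividing `Y`; if it is a prime `p` then `2` is not a cube modulo `p` (Gauss), so the order of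
`2` modulo `p` is not a power of two.

The theorem is the answer to Q1 which is also given by the proof of the frozen statement S17434 (where `n = 0` is not
excluded, which makes no difference because `k + 1` is even).
-/

set_option autoImplicit false

namespace Pool.Agent.Results.MP_74da6d_nt.NoFermatDivisor

theorem result (k : ℕ) (hk : k = 3 * 30093202437272969173339374829 ^ 2) :
    Odd k ∧ 3 ≤ k ∧ Nat.Prime (k * 2 ^ 192 + 1) ∧
      ∀ m n : ℕ, Nat.Prime (k * 2 ^ n + 1) → ¬ (k * 2 ^ n + 1 ∣ 2 ^ 2 ^ m + 1) := by
  have e : k = 2716802498792075316461397636701496294623800404325676337723 := by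
    rw [hk]
    norm_num
  rw [e]
  exact ⟨by decide +kernel, by norm_num, Pool.Agent.S17434.prime_192,
    fun m n hp hd => Pool.Agent.S17434.no_divisor n m hp hd⟩

end Pool.Agent.Results.MP_74da6d_nt.NoFermatDivisor
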